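import Mathlib

set_option autoImplicit false

/-!
# Amiable semigroups avoiding F do not form a quasivariety

For every `m` we build a finite amiable semigroup `T m` in which two idempotents generate
a subsemigroup with `2 m` elements.  The direct product of all the `T m` contains a copy of the
infinite semigroup `F`, so the class of amiable semigroups avoiding `F` is not closed under
direct products, hence it is not axiomatised by quasi-identities.
-/

namespace Pool.Agent.Results.MP_e1ef61_al.NotQuasivariety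

/-! ### Statement -/

/-- Algebras of type `⟨2,1,1⟩`: a carrier with a multiplication and two unary operations. -/
class Alg (S : Type) extends Mul S where
  /-- the unary operation `x ↦ x_ℓ` -/
  ell : S → S
  /-- the unary operation `x ↦ x_r` -/
  arr : S → S

/-- Terms in the signature `(·, ℓ, r)` in the variables `x_0, x_1, …`. -/
inductive Term : Type
  | var : ℕ → Term
  | mul : Term → Term → Term
  | ell : Term → Term
  | arr : Term → Term

/-- Value of a term in an algebra under an assignment of the variables. -/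
def Term.eval {S : Type} [Alg S] (v : ℕ → S) : Term → S
  | .var n => v n
  | .mul s t => s.eval v * t.eval v
  | .ell t => Alg.ell (t.eval v)
  | .arr t => Alg.arr (t.eval v)

/-- A quasi-identity `(s₁ = t₁ ∧ … ∧ s_k = t_k) ⇒ s = t`. -/
structure QuasiIdentity : Type where
  /-- the list of premises -/
  hyps : List (Term × Term)
  /-- the conclusion -/
  concl : Term × Term

/-- The algebra `S` satisfies the quasi-identity `q`. -/
def QuasiIdentity.Holds (q : QuasiIdentity) (S : Type) [Alg S] : Prop :=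
  ∀ v : ℕ → S, (∀ p ∈ q.hyps, p.1.eval v = p.2.eval v) → q.concl.1.eval v = q.concl.2.eval v

/-- `S` has a two-sided identity element, i.e. the semigroup `S` is a monoid. -/
def HasIdentity (S : Type) [Mul S] : Prop := ∃ e : S, ∀ z : S, e * z = z ∧ z * e = z

/-- The relation `L*`: for all `a, b ∈ S¹`, `x a = x b ↔ y a = y b`.  The first clause is the case
`a, b ∈ S`; the second one is the case where one of `a, b` is the identity adjoined to `S` when `S`
is not a monoid. -/
def LStar {S : Type} [Mul S] (x y : S) : Prop :=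
  (∀ a b : S, x * a = x * b ↔ y * a = y * b) ∧
  (¬ HasIdentity S → ∀ a : S, x * a = x ↔ y * a = y)

/-- The relation `R*`: for all `a, b ∈ S¹`, `a x = b x ↔ a y = b y`. -/
def RStar {S : Type} [Mul S] (x y : S) : Prop :=
  (∀ a b : S, a * x = b * x ↔ a * y = b * y) ∧
  (¬ HasIdentity S → ∀ a : S, a * x = x ↔ a * y = y)

/-- `S` is an amiable semigroup, and its operations `ell`, `arr` send `x` to the unique idempotent
`x_ℓ` that is `L*`-related to `x` and to the unique idempotent `x_r` that is `R*`-related to `x`. -/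
structure IsAmiable (S : Type) [Alg S] : Prop where
  assoc : ∀ x y z : S, x * y * z = x * (y * z)
  lstar : ∀ x : S, ∃! e : S, e * e = e ∧ LStar x e
  rstar : ∀ x : S, ∃! e : S, e * e = e ∧ RStar x e
  ell_spec : ∀ x : S, (Alg.ell x) * (Alg.ell x) = Alg.ell x ∧ LStar x (Alg.ell x)
  arr_spec : ∀ x : S, (Alg.arr x) * (Alg.arr x) = Alg.arr x ∧ RStar x (Alg.arr x)

/-- The defining relations `a² = a`, `b² = b` of `F` on the free semigroup on two letters
`a = of true`, `b = of false`. -/
inductive FRel : FreeSemigroup Bool → FreeSemigroup Bool → Prop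
  | sq (t : Bool) : FRel (FreeSemigroup.of t * FreeSemigroup.of t) (FreeSemigroup.of t)

/-- The semigroup `F = ⟨a, b ∣ a² = a, b² = b⟩`. -/
abbrev F : Type := (conGen FRel).Quotient

/-- The class `𝒦` of amiable semigroups (as algebras of type `⟨2,1,1⟩`) that avoid `F`. -/
def InK (S : Type) [Alg S] : Prop :=
  IsAmiable S ∧ ∀ U : Subsemigroup S, IsEmpty (U ≃* F)

/-! ### The finite amiable semigroups `T m` -/

section

variable {S : Type}

lemma LStar.one_clause [Mul S] {x y : S} (h : LStar x y) (a : S) : x * a = x ↔ y * a = y := by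
  by_cases hS : HasIdentity S
  · obtain ⟨e, he⟩ := hS
    have h1 := h.1 a e
    rwa [(he x).2, (he y).2] at h1
  · exact h.2 hS a

lemma RStar.one_clause [Mul S] {x y : S} (h : RStar x y) (a : S) : a * x = x ↔ a * y = y := by
  by_cases hS : HasIdentity S
  · obtain ⟨e, he⟩ := hS
    have h1 := h.1 a e
    rwa [(he x).1, (he y).1] at h1
  · exact h.2 hS a

end

/-- Sets of pairs `(i, i + c)` with `i` of a fixed parity. -/
def Good (m : ℕ) (X : Set (Fin m × Fin m)) : Prop :=
  ∃ c s : ℕ, ∀ p ∈ X, p.2.val = p.1.val + c ∧ p.1.val % 2 = s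

/-- The underlying set of the finite amiable semigroup `T m`. -/
def T (m : ℕ) : Type := {X : Set (Fin m × Fin m) // Good m X}

/-- Two consecutive or equal indices. -/
def Adj {m : ℕ} (j k : Fin m) : Prop := k.val = j.val ∨ k.val = j.val + 1

instance finT (m : ℕ) : Finite (T m) := by
  unfold T
  infer_instance

/-- The product of `T m`. -/
def tmul {m : ℕ} (X Y : T m) : T m :=
  ⟨{p | ∃ j k, (p.1, j) ∈ X.1 ∧ (k, p.2) ∈ Y.1 ∧ Adj j k}, by
    obtain ⟨X, c, s, hX⟩ := X
    obtain ⟨Y, c', s', hY⟩ := Y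
    by_cases hs : (s + c) % 2 = s'
    · refine ⟨c + c', s, ?_⟩
      rintro ⟨i, l⟩ ⟨j, k, h1, h2, h3⟩
      have e1 := hX _ h1
      have e2 := hY _ h2
      simp only [Adj] at h3
      simp only at e1 e2 ⊢
      omega
    · refine ⟨c + c' + 1, s, ?_⟩
      rintro ⟨i, l⟩ ⟨j, k, h1, h2, h3⟩
      have e1 := hX _ h1
      have e2 := hY _ h2
      simp only [Adj] at h3
      simp only at e1 e2 ⊢
      omega⟩

/-- The operation `ℓ` of `T m`: the partial identity on the set of end points. -/
def tell {m : ℕ} (X : T m) : T m :=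
  ⟨{p | p.1 = p.2 ∧ ∃ i, (i, p.2) ∈ X.1}, by
    obtain ⟨X, c, s, hX⟩ := X
    refine ⟨0, (s + c) % 2, ?_⟩
    rintro ⟨j, j'⟩ ⟨h1, i, h2⟩
    have e := hX _ h2
    simp only at h1 e ⊢
    subst h1
    omega⟩

/-- The operation `r` of `T m`: the partial identity on the set of starting points. -/
def tarr {m : ℕ} (X : T m) : T m :=
  ⟨{p | p.1 = p.2 ∧ ∃ j, (p.1, j) ∈ X.1}, by
    obtain ⟨X, c, s, hX⟩ := X
    refine ⟨0, s, ?_⟩
    rintro ⟨i, i'⟩ ⟨h1, j, h2⟩
    have e := hX _ h2
    simp only at h1 e ⊢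
    subst h1
    omega⟩

instance algT (m : ℕ) : Alg (T m) where
  mul := tmul
  ell := tell
  arr := tarr

lemma T.ext {m : ℕ} {X Y : T m} (h : ∀ i j, (i, j) ∈ X.1 ↔ (i, j) ∈ Y.1) : X = Y := by
  apply Subtype.ext
  ext ⟨i, j⟩
  exact h i j

lemma mem_mul {m : ℕ} {X Y : T m} {i l : Fin m} :
    (i, l) ∈ (X * Y).1 ↔ ∃ j k, (i, j) ∈ X.1 ∧ (k, l) ∈ Y.1 ∧ Adj j k := Iff.rfl

lemma mem_ell {m : ℕ} {X : T m} {i j : Fin m} :
    (i, j) ∈ (Alg.ell X).1 ↔ i = j ∧ ∃ i', (i', j) ∈ X.1 := Iff.rfl

lemma mem_arr {m : ℕ} {X : T m} {i j : Fin m} :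
    (i, j) ∈ (Alg.arr X).1 ↔ i = j ∧ ∃ j', (i, j') ∈ X.1 := Iff.rfl

lemma T.assoc {m : ℕ} (X Y Z : T m) : X * Y * Z = X * (Y * Z) := by
  apply T.ext
  intro i l
  simp only [mem_mul]
  constructor
  · rintro ⟨j, k, ⟨j', k', h1, h2, h3⟩, h4, h5⟩
    exact ⟨j', k', h1, ⟨j, k, h2, h4, h5⟩, h3⟩
  · rintro ⟨j, k, h1, ⟨j', k', h2, h3, h4⟩, h5⟩
    exact ⟨j', k', ⟨j, k, h1, h2, h5⟩, h3, h4⟩

lemma T.right_unique {m : ℕ} (X : T m) {i j j' : Fin m} (h : (i, j) ∈ X.1) (h' : (i, j') ∈ X.1) :
    j = j' := by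
  obtain ⟨X, c, s, hX⟩ := X
  have e1 := hX _ h
  have e2 := hX _ h'
  apply Fin.ext
  simp only at e1 e2
  omega

lemma T.left_unique {m : ℕ} (X : T m) {i i' j : Fin m} (h : (i, j) ∈ X.1) (h' : (i', j) ∈ X.1) :
    i = i' := by
  obtain ⟨X, c, s, hX⟩ := X
  have e1 := hX _ h
  have e2 := hX _ h'
  apply Fin.ext
  simp only at e1 e2
  omega

/-- same parity of the starting points -/
lemma T.parity_left {m : ℕ} (X : T m) {i i' j j' : Fin m} (h : (i, j) ∈ X.1)
    (h' : (i', j') ∈ X.1) : i.val % 2 = i'.val % 2 := by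
  obtain ⟨X, c, s, hX⟩ := X
  have e1 := hX _ h
  have e2 := hX _ h'
  simp only at e1 e2
  omega

lemma T.parity_right {m : ℕ} (X : T m) {i i' j j' : Fin m} (h : (i, j) ∈ X.1)
    (h' : (i', j') ∈ X.1) : j.val % 2 = j'.val % 2 := by
  obtain ⟨X, c, s, hX⟩ := X
  have e1 := hX _ h
  have e2 := hX _ h'
  simp only at e1 e2
  omega

/-- Idempotents are partial identities. -/
lemma T.idem_diag {m : ℕ} (X : T m) (h : X * X = X) {i j : Fin m} (hij : (i, j) ∈ X.1) :
    i = j := by
  have h1 : (i, j) ∈ (X * X).1 := by rw [h]; exact hij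
  obtain ⟨a, b, h2, h3, h4⟩ := mem_mul.1 h1
  obtain ⟨X, c, s, hX⟩ := X
  have e1 := hX _ hij
  have e2 := hX _ h2
  have e3 := hX _ h3
  apply Fin.ext
  simp only [Adj] at h4
  simp only at e1 e2 e3
  omega

lemma T.diag_idem {m : ℕ} (X : T m) (h : ∀ i j, (i, j) ∈ X.1 → i = j) : X * X = X := by
  apply T.ext
  intro i l
  rw [mem_mul]
  constructor
  · rintro ⟨j, k, h1, h2, h3⟩
    have e1 := h _ _ h1
    have e2 := h _ _ h2
    subst e1 e2
    have e3 := X.parity_left h1 h2
    have e4 : i = k := by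
      apply Fin.ext
      simp only [Adj] at h3
      omega
    subst e4
    exact h1
  · intro h1
    have e1 := h _ _ h1
    subst e1
    exact ⟨i, i, h1, h1, Or.inl rfl⟩

lemma T.ell_idem {m : ℕ} (X : T m) : (Alg.ell X) * (Alg.ell X) = Alg.ell X :=
  T.diag_idem _ fun _ _ h => (mem_ell.1 h).1

lemma T.arr_idem {m : ℕ} (X : T m) : (Alg.arr X) * (Alg.arr X) = Alg.arr X :=
  T.diag_idem _ fun _ _ h => (mem_arr.1 h).1

lemma T.mul_ell {m : ℕ} (X : T m) : X * Alg.ell X = X := by
  apply T.ext
  intro i l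
  rw [mem_mul]
  constructor
  · rintro ⟨j, k, h1, h2, h3⟩
    obtain ⟨rfl, i', h4⟩ := mem_ell.1 h2
    have e := X.parity_right h1 h4
    have : j = k := by
      apply Fin.ext
      simp only [Adj] at h3
      omega
    subst this
    exact h1
  · intro h
    exact ⟨l, l, h, mem_ell.2 ⟨rfl, i, h⟩, Or.inl rfl⟩

lemma T.arr_mul {m : ℕ} (X : T m) : Alg.arr X * X = X := by
  apply T.ext
  intro i l
  rw [mem_mul]
  constructor
  · rintro ⟨j, k, h1, h2, h3⟩
    obtain ⟨rfl, j', h4⟩ := mem_arr.1 h1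
    have e := X.parity_left h2 h4
    have : i = k := by
      apply Fin.ext
      simp only [Adj] at h3
      omega
    subst this
    exact h2
  · intro h
    exact ⟨i, i, mem_arr.2 ⟨rfl, l, h⟩, h, Or.inl rfl⟩

lemma T.ell_mul_eq {m : ℕ} {X a b : T m} (h : X * a = X * b) :
    Alg.ell X * a = Alg.ell X * b := by
  have key : ∀ a b : T m, X * a = X * b → ∀ j l, (j, l) ∈ (Alg.ell X * a).1 →
      (j, l) ∈ (Alg.ell X * b).1 := by
    intro a b h j l hjl
    obtain ⟨j', k, h1, h2, h3⟩ := mem_mul.1 hjl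
    obtain ⟨rfl, i, h4⟩ := mem_ell.1 h1
    have h5 : (i, l) ∈ (X * a).1 := mem_mul.2 ⟨j, k, h4, h2, h3⟩
    rw [h] at h5
    obtain ⟨j'', k', h6, h7, h8⟩ := mem_mul.1 h5
    have := X.right_unique h4 h6
    subst this
    exact mem_mul.2 ⟨j, k', h1, h7, h8⟩
  exact T.ext fun j l => ⟨key a b h j l, key b a h.symm j l⟩

lemma T.mul_arr_eq {m : ℕ} {X a b : T m} (h : a * X = b * X) :
    a * Alg.arr X = b * Alg.arr X := by
  have key : ∀ a b : T m, a * X = b * X → ∀ j l, (j, l) ∈ (a * Alg.arr X).1 →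
      (j, l) ∈ (b * Alg.arr X).1 := by
    intro a b h i k hjl
    obtain ⟨j, k', h1, h2, h3⟩ := mem_mul.1 hjl
    obtain ⟨rfl, l, h4⟩ := mem_arr.1 h2
    have h5 : (i, l) ∈ (a * X).1 := mem_mul.2 ⟨j, k', h1, h4, h3⟩
    rw [h] at h5
    obtain ⟨j'', k'', h6, h7, h8⟩ := mem_mul.1 h5
    have := X.left_unique h4 h7
    subst this
    exact mem_mul.2 ⟨j'', k', h6, h2, h8⟩
  exact T.ext fun j l => ⟨key a b h j l, key b a h.symm j l⟩

lemma T.lstar_ell {m : ℕ} (X : T m) : LStar X (Alg.ell X) := by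
  have h1 : ∀ a b : T m, X * a = X * b ↔ Alg.ell X * a = Alg.ell X * b := by
    intro a b
    constructor
    · exact T.ell_mul_eq
    · intro h
      rw [← T.mul_ell X, T.assoc, h, ← T.assoc]
  refine ⟨h1, fun _ a => ?_⟩
  have h2 := h1 a (Alg.ell X)
  rwa [T.mul_ell, T.ell_idem] at h2

lemma T.rstar_arr {m : ℕ} (X : T m) : RStar X (Alg.arr X) := by
  have h1 : ∀ a b : T m, a * X = b * X ↔ a * Alg.arr X = b * Alg.arr X := by
    intro a b
    constructor
    · exact T.mul_arr_eq
    · intro h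
      rw [← T.arr_mul X, ← T.assoc, h, T.assoc]
  refine ⟨h1, fun _ a => ?_⟩
  have h2 := h1 a (Alg.arr X)
  rwa [T.arr_mul, T.arr_idem] at h2

lemma T.lstar_idem_unique {m : ℕ} {x e f : T m} (he : e * e = e) (hf : f * f = f)
    (h1 : LStar x e) (h2 : LStar x f) : e = f := by
  have key : ∀ e f : T m, e * e = e → f * f = f → LStar x e → LStar x f →
      ∀ i j, (i, j) ∈ e.1 → (i, j) ∈ f.1 := by
    intro e f he hf h1 h2 i j hij
    have h3 : e * f = e := (h1.one_clause f).1 ((h2.one_clause f).2 hf)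
    have hd := e.idem_diag he hij
    subst hd
    rw [← h3] at hij
    obtain ⟨j, k, h4, h5, h6⟩ := mem_mul.1 hij
    have := f.idem_diag hf h5
    subst this
    exact h5
  exact T.ext fun i j => ⟨key e f he hf h1 h2 i j, key f e hf he h2 h1 i j⟩

lemma T.rstar_idem_unique {m : ℕ} {x e f : T m} (he : e * e = e) (hf : f * f = f)
    (h1 : RStar x e) (h2 : RStar x f) : e = f := by
  have key : ∀ e f : T m, e * e = e → f * f = f → RStar x e → RStar x f →
      ∀ i j, (i, j) ∈ e.1 → (i, j) ∈ f.1 := by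
    intro e f he hf h1 h2 i j hij
    have h3 : f * e = e := (h1.one_clause f).1 ((h2.one_clause f).2 hf)
    have hd := e.idem_diag he hij
    subst hd
    rw [← h3] at hij
    obtain ⟨j, k, h4, h5, h6⟩ := mem_mul.1 hij
    have := f.idem_diag hf h4
    subst this
    exact h4
  exact T.ext fun i j => ⟨key e f he hf h1 h2 i j, key f e hf he h2 h1 i j⟩

/-- The algebra `T m` is an amiable semigroup. -/
lemma T.isAmiable (m : ℕ) : IsAmiable (T m) where
  assoc := T.assoc
  lstar x := ⟨Alg.ell x, ⟨T.ell_idem x, T.lstar_ell x⟩,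
    fun _ hy => T.lstar_idem_unique hy.1 (T.ell_idem x) hy.2 (T.lstar_ell x)⟩
  rstar x := ⟨Alg.arr x, ⟨T.arr_idem x, T.rstar_arr x⟩,
    fun _ hy => T.rstar_idem_unique hy.1 (T.arr_idem x) hy.2 (T.rstar_arr x)⟩
  ell_spec x := ⟨T.ell_idem x, T.lstar_ell x⟩
  arr_spec x := ⟨T.arr_idem x, T.rstar_arr x⟩

/-! ### Direct products -/

/-- The direct product of a family of algebras. -/
instance algPi {ι : Type} (A : ι → Type) [∀ i, Alg (A i)] : Alg (∀ i, A i) where
  mul f g := fun i => f i * g i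
  ell f := fun i => Alg.ell (f i)
  arr f := fun i => Alg.arr (f i)

lemma eval_pi {ι : Type} (A : ι → Type) [∀ i, Alg (A i)] (v : ℕ → ∀ i, A i) (t : Term) (i : ι) :
    t.eval v i = t.eval (fun n => v n i) := by
  induction t with
  | var n => rfl
  | mul s t hs ht =>
    change s.eval v i * t.eval v i = _
    rw [hs, ht]
    rfl
  | ell t ht =>
    change Alg.ell (t.eval v i) = _
    rw [ht]
    rfl
  | arr t ht =>
    change Alg.arr (t.eval v i) = _
    rw [ht]
    rfl

lemma holds_pi {ι : Type} (A : ι → Type) [∀ i, Alg (A i)] (q : QuasiIdentity)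
    (h : ∀ i, q.Holds (A i)) : q.Holds (∀ i, A i) := by
  intro v hv
  funext i
  rw [eval_pi, eval_pi]
  apply h i
  intro p hp
  rw [← eval_pi, ← eval_pi, hv p hp]

/-! ### The copy of `F` in the product of the `T m` -/

/-- The product of all the `T m`. -/
abbrev P : Type := ∀ m : ℕ, T m

instance semigroupP : Semigroup P where
  mul_assoc x y z := funext fun m => T.assoc (x m) (y m) (z m)

/-- The images of the two generators. -/
def gen (t : Bool) : P := fun m =>
  ⟨{p | p.1 = p.2 ∧ p.1.val % 2 = t.toNat}, 0, t.toNat, by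
    rintro ⟨i, j⟩ ⟨h1, h2⟩
    simp only at h1 h2 ⊢
    subst h1
    omega⟩

lemma gen_sq (t : Bool) : gen t * gen t = gen t := by
  funext m
  exact T.diag_idem _ fun _ _ h => h.1

/-- The homomorphism from the free semigroup. -/
def phi0 : FreeSemigroup Bool →ₙ* P := FreeSemigroup.lift gen

lemma phi0_rel : ∀ x y, conGen FRel x y → phi0 x = phi0 y := by
  have h : conGen FRel ≤ Con.ker phi0 := by
    apply Con.conGen_le.2
    rintro x y ⟨t⟩
    change phi0 _ = phi0 _
    rw [map_mul]
    simp only [phi0, FreeSemigroup.lift_of]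
    exact gen_sq t
  intro x y hxy
  exact h hxy

/-- The homomorphism from `F` to the product. -/
def phi : F →ₙ* P where
  toFun q := Con.liftOn q phi0 phi0_rel
  map_mul' := by
    intro x y
    induction x using Con.induction_on
    induction y using Con.induction_on
    exact map_mul phi0 _ _

/-- generators of `F` -/
def fgen (t : Bool) : F := ((FreeSemigroup.of t : FreeSemigroup Bool) : F)

lemma fgen_sq (t : Bool) : fgen t * fgen t = fgen t := by
  apply (Con.eq _).2
  exact ConGen.Rel.of _ _ (FRel.sq t)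

lemma phi_fgen (t : Bool) : phi (fgen t) = gen t := by
  change phi0 (FreeSemigroup.of t) = gen t
  simp [phi0]

/-- The alternating word with `n + 1` letters that starts with the letter `t`. -/
def word : Bool → ℕ → F
  | t, 0 => fgen t
  | t, n + 1 => fgen t * word (!t) n

lemma fgen_mul_word (t : Bool) (n : ℕ) : fgen t * word t n = word t n := by
  cases n with
  | zero => exact fgen_sq t
  | succ n =>
    change fgen t * (fgen t * word (!t) n) = fgen t * word (!t) n
    rw [← mul_assoc, fgen_sq]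

lemma exists_word (x : F) : ∃ t n, x = word t n := by
  induction x using Con.induction_on with
  | H x =>
    induction x using FreeSemigroup.recOnMul with
    | ih1 t => exact ⟨t, 0, rfl⟩
    | ih2 t y _ hy =>
      obtain ⟨s, n, hs⟩ := hy
      have e : (((FreeSemigroup.of t * y : FreeSemigroup Bool)) : F) = fgen t * word s n := by
        rw [← hs]
        rfl
      rw [e]
      by_cases hts : s = t
      · subst hts
        exact ⟨s, n, fgen_mul_word s n⟩
      · have : s = !t := by
          cases s <;> cases t <;> simp_all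
        subst this
        exact ⟨t, n + 1, rfl⟩

lemma mem_phi_word (t : Bool) (n m : ℕ) (i j : Fin m) :
    (i, j) ∈ (phi (word t n) m).1 ↔ (j.val = i.val + n ∧ i.val % 2 = t.toNat) := by
  induction n generalizing t i j with
  | zero =>
    change (i, j) ∈ (phi (fgen t) m).1 ↔ _
    rw [phi_fgen]
    change (i = j ∧ i.val % 2 = t.toNat) ↔ _
    rw [Fin.ext_iff]
    constructor
    · rintro ⟨h1, h2⟩
      exact ⟨by omega, h2⟩
    · rintro ⟨h1, h2⟩
      exact ⟨by omega, h2⟩
  | succ n ih =>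
    have e : phi (word t (n + 1)) m = gen t m * phi (word (!t) n) m := by
      change phi (fgen t * word (!t) n) m = _
      rw [map_mul, phi_fgen]
      rfl
    rw [e, mem_mul]
    constructor
    · rintro ⟨a, k, ⟨h1, h2⟩, h3, h4⟩
      rw [ih] at h3
      obtain ⟨h3, h5⟩ := h3
      simp only [Adj] at h4
      simp only at h1 h2
      subst h1
      cases t <;> simp at h2 h5 ⊢ <;> omega
    · rintro ⟨h1, h2⟩
      refine ⟨i, ⟨i.val + 1, by have := j.isLt; omega⟩, ⟨rfl, h2⟩, ?_, Or.inr rfl⟩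
      rw [ih]
      refine ⟨by simp only; omega, ?_⟩
      cases t <;> simp at h2 ⊢ <;> omega

lemma word_inj {t t' : Bool} {n n' : ℕ} (h : phi (word t n) = phi (word t' n')) :
    t = t' ∧ n = n' := by
  have h1 := congrFun h (n + n' + 2)
  have ht : t.toNat ≤ 1 := Bool.toNat_le t
  have ht' : t'.toNat ≤ 1 := Bool.toNat_le t'
  have h2 : ((⟨t.toNat, by omega⟩ : Fin (n + n' + 2)), (⟨t.toNat + n, by omega⟩ : Fin (n + n' + 2)))
      ∈ (phi (word t n) (n + n' + 2)).1 := by
    rw [mem_phi_word]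
    exact ⟨rfl, by simp only; omega⟩
  rw [h1, mem_phi_word] at h2
  obtain ⟨h3, h4⟩ := h2
  simp only at h3 h4
  refine ⟨?_, by omega⟩
  cases t <;> cases t' <;> simp_all

lemma phi_injective : Function.Injective phi := by
  intro x y h
  obtain ⟨t, n, rfl⟩ := exists_word x
  obtain ⟨t', n', rfl⟩ := exists_word y
  obtain ⟨h1, h2⟩ := word_inj h
  rw [h1, h2]

instance infiniteF : Infinite F :=
  Infinite.of_injective (fun n : ℕ => word true n) fun _ _ h =>
    (word_inj (t := true) (t' := true) (congrArg phi h)).2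

lemma T.inK (m : ℕ) : InK (T m) := by
  refine ⟨T.isAmiable m, fun U => ⟨fun e => ?_⟩⟩
  have : Finite U := Subtype.finite
  exact (not_finite_iff_infinite.2 infiniteF) (Finite.of_equiv U e.toEquiv)

lemma P_not_inK : ¬ InK P := by
  rintro ⟨-, h⟩
  have e : F ≃* (MulHom.srange phi) :=
    MulEquiv.ofBijective (phi.srangeRestrict)
      ⟨fun x y hxy => phi_injective (congrArg Subtype.val hxy), phi.srangeRestrict_surjective⟩
  exact (h (MulHom.srange phi)).false e.symm

/-- **The class of amiable semigroups avoiding `F` is not a quasivariety**: no set of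
quasi-identities in the signature `(·, ℓ, r)` axiomatises it (not even among algebras whose
carrier is a nonempty type in the lowest universe). -/
theorem result :
    ¬ ∃ Q : Set QuasiIdentity, ∀ (S : Type) [Nonempty S] [Alg S],
      InK S ↔ ∀ q ∈ Q, q.Holds S := by
  rintro ⟨Q, hQ⟩
  have : ∀ m, Nonempty (T m) := fun m => ⟨⟨∅, 0, 0, by simp⟩⟩
  have : Nonempty P := ⟨fun m => Classical.arbitrary _⟩
  apply P_not_inK
  rw [hQ P]
  intro q hq
  exact holds_pi _ q fun m => (hQ (T m)).1 (T.inK m) q hq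

end Pool.Agent.Results.MP_e1ef61_al.NotQuasivariety
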